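import Pool.Agent.N523.ME.LVb

/-!
PROJECT ME (helper939): average energy over the level sets (S_LV).
-/

set_option autoImplicit false
open MeasureTheory ProbabilityTheory Filter Topology Finset
open scoped Classical

namespace Pool.Agent.N523.ME

open Pool.Agent.N939.ME

theorem lv (hHAT : S_HAT) (hTT : S_TT) (hBK1 : S_BK1) (hBK2 : S_BK2) (hE4 : S_E4) (hCR : S_CR)
    (hER : S_ER) (hON : S_ON) : S_LV := by
  intro S _ Q _ ν _ hν hErg f Φ Ψ hR η hη
  obtain ⟨iU, eU⟩ := ups_int Q ν hHAT hTT hν hR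
  set u := Ups Q f Φ Ψ with hu
  obtain ⟨mΦ, iΦ, nΦ, tΦ⟩ := sqT_facts ν Φ hR.mΦ hR.lΦ
  obtain ⟨mΨ, iΨ, nΨ, tΨ⟩ := sqT_facts ν Ψ hR.mΨ hR.lΨ
  have iΦ2 : Integrable (fun p => Φ p ^ 2) (nuh ν) := hR.lΦ.integrable_sq
  have iΨ2 : Integrable (fun p => Ψ p ^ 2) (nuh ν) := hR.lΨ.integrable_sq
  set E := ∫ p, Φ p ^ 2 ∂(nuh ν) + ∫ p, Ψ p ^ 2 ∂(nuh ν) with hE
  have E0 : 0 ≤ E := add_nonneg (integral_nonneg fun _ => sq_nonneg _)
    (integral_nonneg fun _ => sq_nonneg _)
  obtain ⟨l, l0, hl⟩ : ∃ l : ℝ, 0 < l ∧ l * E ≤ η / 8 := by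
    refine ⟨η / (8 * (E + 1)), by positivity, ?_⟩
    rw [div_mul_eq_mul_div, div_le_iff₀ (by positivity)]
    nlinarith
  set K := 1 + 1 / l with hK
  have K1 : 1 ≤ K := by
    have : 0 < 1 / l := by positivity
    linarith
  have K0 : 0 < K := by linarith
  set δ := η / (64 * K) with hδ
  have δ0 : 0 < δ := by positivity
  have hKδ : K * δ = η / 64 := by
    rw [hδ]; field_simp
  have δη : δ ≤ η / 64 := by
    rw [← hKδ]; nlinarith
  -- the set where the resolvents are large
  obtain ⟨M, M1, hM⟩ : ∃ M : ℝ, 1 ≤ M ∧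
      ∫ x, ({x | M < sqT 0 Φ x} ∪ {x | M < sqT 0 Ψ x}).indicator
        (fun x => sqT 0 Φ x + sqT 0 Ψ x + |u x|) x ∂ν < δ := by
    have ht := setint_tendsto ν
      (fun n : ℕ => {x | (n:ℝ) < sqT 0 Φ x} ∪ {x | (n:ℝ) < sqT 0 Ψ x})
      (fun n => (measurableSet_lt measurable_const (mΦ 0)).union
        (measurableSet_lt measurable_const (mΨ 0)))
      (Eventually.of_forall fun x => by
        obtain ⟨n0, hn0⟩ := exists_nat_gt (max (sqT 0 Φ x) (sqT 0 Ψ x))
        filter_upwards [eventually_ge_atTop n0] with n hn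
        have h2 : (n0:ℝ) ≤ n := by exact_mod_cast hn
        have h3 := le_max_left (sqT 0 Φ x) (sqT 0 Ψ x)
        have h4 := le_max_right (sqT 0 Φ x) (sqT 0 Ψ x)
        rintro (h | h)
        · have : (n:ℝ) < sqT 0 Φ x := h
          linarith
        · have : (n:ℝ) < sqT 0 Ψ x := h
          linarith)
      (fun x => sqT 0 Φ x + sqT 0 Ψ x + |u x|) ((iΦ.add iΨ).add iU.abs)
    obtain ⟨n, hn1, hn2⟩ := ((ht.eventually (gt_mem_nhds δ0)).and (eventually_ge_atTop 1)).exists
    exact ⟨n, by exact_mod_cast hn2, hn1⟩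
  have M0 : 0 < M := by linarith
  -- the set where the tails of the resolvents are large
  obtain ⟨r0, r00, r01, hr⟩ : ∃ r0 : ℝ, 0 ≤ r0 ∧ r0 < 1 ∧
      ∫ x, ({x | δ < sqT r0 Φ x} ∪ {x | δ < sqT r0 Ψ x}).indicator
        (fun x => M + |u x|) x ∂ν < δ := by
    have ht := setint_tendsto ν
      (fun n : ℕ => {x | δ < sqT (1 - 1 / ((n:ℝ) + 2)) Φ x} ∪
        {x | δ < sqT (1 - 1 / ((n:ℝ) + 2)) Ψ x})
      (fun n => (measurableSet_lt measurable_const (mΦ _)).union
        (measurableSet_lt measurable_const (mΨ _)))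
      (by
        filter_upwards [tΦ, tΨ] with x h1 h2
        filter_upwards [h1 δ δ0, h2 δ δ0] with n h3 h4
        rintro (h | h)
        · have : δ < sqT (1 - 1 / ((n:ℝ) + 2)) Φ x := h
          linarith
        · have : δ < sqT (1 - 1 / ((n:ℝ) + 2)) Ψ x := h
          linarith)
      (fun x => M + |u x|) ((integrable_const M).add iU.abs)
    obtain ⟨n, hn1⟩ := (ht.eventually (gt_mem_nhds δ0)).exists
    refine ⟨1 - 1 / ((n:ℝ) + 2), ?_, ?_, hn1⟩
    · have : 1 / ((n:ℝ) + 2) ≤ 1 := by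
        rw [div_le_one (by positivity)]
        have : (0:ℝ) ≤ n := Nat.cast_nonneg n
        linarith
      linarith
    · have : 0 < 1 / ((n:ℝ) + 2) := by positivity
      linarith
  set A0 : Set S := {x | M < sqT 0 Φ x} ∪ {x | M < sqT 0 Ψ x} with hA0
  set A1 : Set S := {x | δ < sqT r0 Φ x} ∪ {x | δ < sqT r0 Ψ x} with hA1
  have mA0 : MeasurableSet A0 := (measurableSet_lt measurable_const (mΦ 0)).union
        (measurableSet_lt measurable_const (mΨ 0))
  have mA1 : MeasurableSet A1 := (measurableSet_lt measurable_const (mΦ r0)).union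
        (measurableSet_lt measurable_const (mΨ r0))
  have mA : MeasurableSet (A0 ∪ A1) := mA0.union mA1
  have i0 : Integrable (fun x => A0.indicator
      (fun x => sqT 0 Φ x + sqT 0 Ψ x + |u x|) x) ν := ((iΦ.add iΨ).add iU.abs).indicator mA0
  have i1 : Integrable (fun x => A1.indicator (fun x => M + |u x|) x) ν :=
    ((integrable_const M).add iU.abs).indicator mA1
  have iconst : ∀ {B : Set S}, MeasurableSet B →
      Integrable (fun x => B.indicator (fun _ => M) x) ν := fun hB =>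
    (integrable_const M).indicator hB
  have iab : ∀ {B : Set S}, MeasurableSet B →
      Integrable (fun x => B.indicator (fun x => |u x|) x) ν := fun hB => iU.abs.indicator hB
  have econst : ∀ {B : Set S}, MeasurableSet B →
      ∫ x, B.indicator (fun _ => M) x ∂ν = M * ν.real B := fun hB => by
    rw [integral_indicator hB, setIntegral_const, smul_eq_mul, mul_comm]
  have hνA : M * ν.real (A0 ∪ A1) ≤ 2 * δ := by
    have b0 : M * ν.real A0 ≤ δ := by
      rw [← econst mA0]
      refine (integral_mono (iconst mA0) i0 fun x => ?_).trans hM.le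
      have h5 := nΦ 0 x
      have h6 := nΨ 0 x
      have h7 := abs_nonneg (u x)
      by_cases hx : x ∈ A0
      · show A0.indicator (fun _ => M) x ≤
          A0.indicator (fun x => sqT 0 Φ x + sqT 0 Ψ x + |u x|) x
        rw [Set.indicator_of_mem hx, Set.indicator_of_mem hx]
        rcases hx with h | h
        · have : M < sqT 0 Φ x := h
          linarith
        · have : M < sqT 0 Ψ x := h
          linarith
      · show A0.indicator (fun _ => M) x ≤
          A0.indicator (fun x => sqT 0 Φ x + sqT 0 Ψ x + |u x|) x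
        rw [Set.indicator_of_notMem hx, Set.indicator_of_notMem hx]
    have b1 : M * ν.real A1 ≤ δ := by
      rw [← econst mA1]
      refine (integral_mono (iconst mA1) i1 fun x => ?_).trans hr.le
      refine Set.indicator_le_indicator ?_
      have h7 := abs_nonneg (u x)
      linarith
    have b2 := measureReal_union_le (μ := ν) A0 A1
    have := mul_le_mul_of_nonneg_left b2 M0.le
    linarith
  have hUA : ∫ x, (A0 ∪ A1).indicator (fun x => |u x|) x ∂ν ≤ 2 * δ := by
    have b0 : ∫ x, A0.indicator (fun x => |u x|) x ∂ν ≤ δ := by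
      refine (integral_mono (iab mA0) i0 fun x => ?_).trans hM.le
      refine Set.indicator_le_indicator ?_
      have h5 := nΦ 0 x
      have h6 := nΨ 0 x
      linarith
    have b1 : ∫ x, A1.indicator (fun x => |u x|) x ∂ν ≤ δ := by
      refine (integral_mono (iab mA1) i1 fun x => ?_).trans hr.le
      refine Set.indicator_le_indicator ?_
      linarith
    have b2 : ∫ x, (A0 ∪ A1).indicator (fun x => |u x|) x ∂ν ≤
        ∫ x, (A0.indicator (fun x => |u x|) x + A1.indicator (fun x => |u x|) x) ∂ν := by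
      refine integral_mono (iab mA) ((iab mA0).add (iab mA1)) fun x => ?_
      show (A0 ∪ A1).indicator (fun x => |u x|) x ≤
        A0.indicator (fun x => |u x|) x + A1.indicator (fun x => |u x|) x
      have p0 : 0 ≤ A0.indicator (fun x => |u x|) x :=
        Set.indicator_nonneg (fun _ _ => abs_nonneg _) x
      have p1 : 0 ≤ A1.indicator (fun x => |u x|) x :=
        Set.indicator_nonneg (fun _ _ => abs_nonneg _) x
      by_cases h0 : x ∈ A0
      · have hx : x ∈ A0 ∪ A1 := Or.inl h0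
        rw [Set.indicator_of_mem hx, Set.indicator_of_mem h0]
        linarith
      · by_cases h1 : x ∈ A1
        · have hx : x ∈ A0 ∪ A1 := Or.inr h1
          rw [Set.indicator_of_mem hx, Set.indicator_of_mem h1]
          linarith
        · have hx : x ∉ A0 ∪ A1 := fun h => h.elim h0 h1
          rw [Set.indicator_of_notMem hx]
          linarith
    rw [integral_add (iab mA0) (iab mA1)] at b2
    linarith
  set A := A0 ∪ A1 with hA
  -- the number of levels
  set ρ := r0 ^ 2 with hρ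
  have ρ0 : 0 ≤ ρ := by positivity
  have ρ1 : ρ < 1 := by nlinarith
  set D := 4 * M * K / (1 - ρ) with hD
  have hD0 : 0 ≤ D := div_nonneg (by positivity) (by linarith)
  set V := ∫ x, |u x| ∂ν with hV
  have hV0 : 0 ≤ V := integral_nonneg fun _ => abs_nonneg _
  obtain ⟨m, hm⟩ := exists_nat_gt (16 * (V + D) / η)
  have m0 : (0:ℝ) < m := lt_of_le_of_lt (by positivity) hm
  have hm0 : 0 < m := by exact_mod_cast m0
  have hVD : V + D ≤ m * (η / 16) := by
    rw [div_lt_iff₀ hη] at hm
    linarith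
  -- large `n`
  set P := ∫ p, |Ψ p * TT (Qh Q) Φ p| ∂(nuh ν) with hP
  set O : ℕ → ℝ := fun n => ∫ p, (Φ p ^ 2 + Ψ p ^ 2) * ∑ i ∈ range n, p.1 ^ (2 * i) ∂(nuh ν)
    with hO
  have t1 : ∀ᶠ n : ℕ in atTop, ∫ x, |(∑ t ∈ range n, (TT Q)^[t] u x) / n - ∫ y, u y ∂ν| ∂ν <
      η / 16 := (hER S Q ν hν hErg u iU).eventually (gt_mem_nhds (by positivity))
  have t2 : ∀ᶠ n : ℕ in atTop, O n / n < η / (32 * K) :=
    (hON S ν (fun p => Φ p ^ 2 + Ψ p ^ 2) (iΦ2.add iΨ2)).eventually
      (gt_mem_nhds (by positivity))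
  have t3 : ∀ᶠ n : ℕ in atTop, P / n < η / 32 :=
    (tendsto_const_div_atTop_nhds_zero_nat P).eventually (gt_mem_nhds (by positivity))
  have t4 : ∀ᶠ n : ℕ in atTop, D / Real.sqrt n < η / 16 :=
    ((tendsto_const_nhds (x := D)).div_atTop
      (Real.tendsto_sqrt_atTop.comp tendsto_natCast_atTop_atTop)).eventually
      (gt_mem_nhds (by positivity))
  obtain ⟨h0, hh0⟩ := eventually_atTop.1
    (t1.and (t2.and (t3.and (t4.and (eventually_ge_atTop 1)))))
  refine ⟨A, m, h0, mA, hm0, ?_⟩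
  intro n hn y my hy
  obtain ⟨q1, q2, q3, q4, q5⟩ := hh0 n hn
  have n0 : (0:ℝ) < n := by exact_mod_cast q5
  have hn0 : 0 < n := q5
  have hb3 := (hBK2 S Q ν hν).2.2.1
  have mB : ∀ k t, MeasurableSet (Blev Q ν y A m k t) := fun k t =>
    (measurableSet_lt measurable_const (hb3 y t my hy).1).union mA
  have sub : ∀ k t, A ⊆ Blev Q ν y A m k t := fun k t x hx => Or.inr hx
  have g1 : ∀ k t, ∀ᵐ x ∂ν, x ∉ Blev Q ν y A m k t → sqT 0 Φ x ≤ M ∧ sqT r0 Φ x ≤ δ := by
    intro k t
    refine Eventually.of_forall fun x hx => ?_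
    have hxA : x ∉ A := fun h => hx (sub k t h)
    refine ⟨not_lt.1 fun h => hxA (Or.inl (Or.inl h)), not_lt.1 fun h => hxA (Or.inr (Or.inl h))⟩
  have g2 : ∀ k t, ∀ᵐ x ∂ν, x ∉ Blev Q ν y A m k t → sqT 0 Ψ x ≤ M ∧ sqT r0 Ψ x ≤ δ := by
    intro k t
    refine Eventually.of_forall fun x hx => ?_
    have hxA : x ∉ A := fun h => hx (sub k t h)
    refine ⟨not_lt.1 fun h => hxA (Or.inl (Or.inr h)), not_lt.1 fun h => hxA (Or.inr (Or.inr h))⟩
  set a : ℕ → ℝ := fun k => ∑ t ∈ range n, ∫ x, (Blev Q ν y A m k t).indicator u x ∂ν with ha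
  set b : ℕ → ℝ := fun k => ∑ t ∈ range (n - 1),
      (∫ x, (Blev Q ν y A m k t \ A).indicator
          (thf Q ρ (Blev Q ν y A m k) (n - 1 - t) t) x ∂ν
        + ∫ x, (Blev Q ν y A m k t \ A).indicator (thb Q ν ρ (Blev Q ν y A m k) t) x ∂ν) with hb
  have hk : ∀ k ∈ range m, enu Q ν f (Blev Q ν y A m k) n ≤
      a k + (2 * P + l * n * E + K * (n * (4 * (M * ν.real A) + 4 * δ) + 2 * O n)) +
        K * (2 * M) * b k := by
    intro k _
    refine (hE4 S Q ν hν f Φ Ψ hR M δ r0 l M0.le δ0.le r00 r01 l0 (Blev Q ν y A m k)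
      (mB k) (g1 k) (g2 k) A mA n).trans ?_
    have s1 : ∑ t ∈ range (n - 1), (4 * M * ν.real (Blev Q ν y A m k t ∩ A) + 4 * δ
          + 2 * M * (∫ x, (Blev Q ν y A m k t \ A).indicator
              (thf Q (r0 ^ 2) (Blev Q ν y A m k) (n - 1 - t) t) x ∂ν
            + ∫ x, (Blev Q ν y A m k t \ A).indicator
              (thb Q ν (r0 ^ 2) (Blev Q ν y A m k) t) x ∂ν)) ≤
        n * (4 * (M * ν.real A) + 4 * δ) + 2 * M * b k := by
      rw [sum_add_distrib, ← mul_sum]
      refine add_le_add ?_ (le_refl _)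
      have s2 : ∀ t ∈ range (n - 1), 4 * M * ν.real (Blev Q ν y A m k t ∩ A) + 4 * δ ≤
          4 * (M * ν.real A) + 4 * δ := by
        intro t _
        have : ν.real (Blev Q ν y A m k t ∩ A) ≤ ν.real A :=
          measureReal_mono Set.inter_subset_right
        have := mul_le_mul_of_nonneg_left this M0.le
        linarith
      refine (sum_le_sum s2).trans ?_
      rw [sum_const, card_range, nsmul_eq_mul]
      refine mul_le_mul_of_nonneg_right ?_ ?_
      · exact_mod_cast Nat.sub_le n 1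
      · have : 0 ≤ M * ν.real A := mul_nonneg M0.le measureReal_nonneg
        linarith
    have s3 := mul_le_mul_of_nonneg_left (add_le_add s1 (le_refl (2 * O n))) K0.le
    have s4 : K * (n * (4 * (M * ν.real A) + 4 * δ) + 2 * M * b k + 2 * O n) =
      K * (n * (4 * (M * ν.real A) + 4 * δ) + 2 * O n) + K * (2 * M) * b k := by ring
    rw [s4] at s3
    linarith
  have hsum := sum_le_sum hk
  rw [sum_add_distrib, sum_add_distrib, ← mul_sum] at hsum
  simp only [sum_const, card_range, nsmul_eq_mul] at hsum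
  have hmain := main_term Q ν hTT hBK2 hν iU mA m n hm0 hn0 my hy
  have hcr := hCR S Q ν hν y my hy A mA ρ ρ0 ρ1 m n hm0
  have hcr' : K * (2 * M) * ∑ k ∈ range m, b k ≤ D * (m * Real.sqrt n + n) := by
    have := mul_le_mul_of_nonneg_left hcr (show 0 ≤ K * (2 * M) by positivity)
    refine this.trans (le_of_eq ?_)
    rw [hD]
    ring
  have w0 : 0 < Real.sqrt n := Real.sqrt_pos.2 n0
  have ww : Real.sqrt n * Real.sqrt n = n := Real.mul_self_sqrt n0.le
  have mn0 : (0:ℝ) < m * n := by positivity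
  have f1 : D * (m * Real.sqrt n) ≤ m * n * (η / 16) := by
    have h1 : D ≤ η / 16 * Real.sqrt n := by
      rw [div_lt_iff₀ w0] at q4
      exact q4.le
    have h2 := mul_le_mul_of_nonneg_right h1 (show 0 ≤ m * Real.sqrt n by positivity)
    refine h2.trans (le_of_eq ?_)
    calc η / 16 * Real.sqrt n * (m * Real.sqrt n) =
        η / 16 * m * (Real.sqrt n * Real.sqrt n) := by ring
      _ = _ := by rw [ww]; ring
  have f2 : (V + D) * n ≤ m * n * (η / 16) := by
    have := mul_le_mul_of_nonneg_right hVD n0.le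
    linarith
  have f3 : m * (2 * P) ≤ m * n * (η / 16) := by
    have h1 : P ≤ η / 32 * n := by
      rw [div_lt_iff₀ n0] at q3
      exact q3.le
    have := mul_le_mul_of_nonneg_left h1 m0.le
    linarith
  have f4 : m * (l * n * E) ≤ m * n * (η / 8) := by
    have := mul_le_mul_of_nonneg_left hl mn0.le
    linarith
  have f5 : m * (K * (n * (4 * (M * ν.real A) + 4 * δ))) ≤ m * n * (12 * (η / 64)) := by
    have h1 : K * (4 * (M * ν.real A) + 4 * δ) ≤ 12 * (η / 64) := by
      rw [← hKδ]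
      have := mul_le_mul_of_nonneg_left hνA K0.le
      linarith
    have := mul_le_mul_of_nonneg_left h1 mn0.le
    linarith
  have f6 : m * (K * (2 * O n)) ≤ m * n * (η / 16) := by
    have h1 : K * O n ≤ η / 32 * n := by
      rw [div_lt_iff₀ n0] at q2
      have := mul_le_mul_of_nonneg_left q2.le K0.le
      refine this.trans (le_of_eq ?_)
      field_simp
    have := mul_le_mul_of_nonneg_left h1 m0.le
    linarith
  have f7 : m * n * ∫ x, A.indicator (fun x => |u x|) x ∂ν ≤ m * n * (2 * (η / 64)) := by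
    refine mul_le_mul_of_nonneg_left (hUA.trans ?_) mn0.le
    linarith
  have f8 : m * n * ∫ x, |(∑ t ∈ range n, (TT Q)^[t] u x) / n - ∫ y, u y ∂ν| ∂ν ≤
      m * n * (η / 16) := mul_le_mul_of_nonneg_left q1.le mn0.le
  rw [eU] at hmain f8
  have h9 : 0 ≤ m * n * η := by positivity
  have e10 : m * (2 * P + l * n * E + K * (n * (4 * (M * ν.real A) + 4 * δ) + 2 * O n)) =
    m * (2 * P) + m * (l * n * E) + m * (K * (n * (4 * (M * ν.real A) + 4 * δ))) +
      m * (K * (2 * O n)) := by ring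
  have e11 : m * n * (sg Q ν f Φ Ψ * ∫ x, y x ∂ν + η) =
    m * n * (sg Q ν f Φ Ψ * ∫ x, y x ∂ν) + m * n * η := by ring
  rw [e10] at hsum
  rw [e11]
  have e12 : D * (m * Real.sqrt n + n) = D * (m * Real.sqrt n) + D * n := by ring
  rw [e12] at hcr'
  have e13 : (V + D) * n = n * V + D * n := by ring
  rw [e13] at f2
  rw [mul_add (m * n : ℝ)] at hmain
  linarith

end Pool.Agent.N523.ME
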