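import Pool.Agent.N939.ME.Stm

/-!
PROJECT ME (helper939): auxiliary facts for the average energy over the level sets.
-/

set_option autoImplicit false
open MeasureTheory ProbabilityTheory Filter Topology Finset
open scoped Classical

namespace Pool.Agent.N523.ME

open Pool.Agent.N939.ME

theorem setint_tendsto {S : Type} [MeasurableSpace S] (ν : Measure S)
    (A : ℕ → Set S) (hA : ∀ n, MeasurableSet (A n)) (h : ∀ᵐ x ∂ν, ∀ᶠ n in atTop, x ∉ A n)
    (u : S → ℝ) (hu : Integrable u ν) :
    Tendsto (fun n => ∫ x, (A n).indicator u x ∂ν) atTop (𝓝 0) := by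
  have e : (0:ℝ) = ∫ x, (fun _ => (0:ℝ)) x ∂ν := by simp
  rw [e]
  refine tendsto_integral_of_dominated_convergence (fun x => ‖u x‖) ?_ hu.norm ?_ ?_
  · intro n; exact (hu.indicator (hA n)).aestronglyMeasurable
  · intro n; exact Eventually.of_forall fun x => norm_indicator_le_norm_self _ _
  · filter_upwards [h] with x hx
    refine tendsto_const_nhds.congr' ?_
    filter_upwards [hx] with n hn
    rw [Set.indicator_of_notMem hn]

theorem count_le (y : ℝ) (h0 : 0 ≤ y) (h1 : y ≤ 1) (m : ℕ) (hm : 0 < m) :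
    |(∑ k ∈ range m, (if (k:ℝ) / m < y then (1:ℝ) else 0)) - m * y| ≤ 1 := by
  have hm' : (0:ℝ) < m := by exact_mod_cast hm
  have e : (range m).filter (fun k : ℕ => (k:ℝ) / m < y) = range ⌈(m:ℝ) * y⌉₊ := by
    ext k
    simp only [mem_filter, mem_range]
    constructor
    · rintro ⟨_, h⟩
      rw [Nat.lt_ceil]
      rwa [div_lt_iff₀ hm', mul_comm] at h
    · intro h
      rw [Nat.lt_ceil] at h
      refine ⟨?_, ?_⟩
      · have : (k:ℝ) < m := by nlinarith
        exact_mod_cast this
      · rw [div_lt_iff₀ hm', mul_comm]; exact h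
  rw [← sum_filter, e]
  simp only [sum_const, card_range, nsmul_eq_mul, mul_one]
  have h2 := Nat.le_ceil ((m:ℝ) * y)
  have h3 := Nat.ceil_lt_add_one (mul_nonneg hm'.le h0)
  rw [abs_le]
  constructor <;> linarith

theorem sum_ind_le {S : Type} [MeasurableSpace S] (Q : Kernel S S) (ν : Measure S)
    (y : S → ℝ) (A : Set S) (m t : ℕ) (hm : 0 < m)
    (hy : ∀ x, 0 ≤ yk Q ν y t x ∧ yk Q ν y t x ≤ 1) (u : S → ℝ) (x : S) :
    ∑ k ∈ range m, (Blev Q ν y A m k t).indicator u x ≤
      m * (yk Q ν y t x * u x) + |u x| + m * A.indicator (fun x => |u x|) x := by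
  have hm' : (0:ℝ) < m := by exact_mod_cast hm
  obtain ⟨y0, y1⟩ := hy x
  by_cases hx : x ∈ A
  · have e : ∀ k ∈ range m, (Blev Q ν y A m k t).indicator u x = u x := fun k _ =>
      Set.indicator_of_mem (show x ∈ Blev Q ν y A m k t from Or.inr hx) u
    rw [sum_congr rfl e, Set.indicator_of_mem hx]
    simp only [sum_const, card_range, nsmul_eq_mul]
    have h1 : u x - yk Q ν y t x * u x ≤ |u x| := by
      have : (1 - yk Q ν y t x) * u x ≤ 1 * |u x| :=
        (mul_le_mul_of_nonneg_left (le_abs_self _) (by linarith)).trans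
          (mul_le_mul_of_nonneg_right (by linarith) (abs_nonneg _))
      linarith
    have h2 := mul_le_mul_of_nonneg_left h1 hm'.le
    have h3 := abs_nonneg (u x)
    nlinarith
  · have e : ∀ k ∈ range m, (Blev Q ν y A m k t).indicator u x =
        (if (k:ℝ) / m < yk Q ν y t x then (1:ℝ) else 0) * u x := by
      intro k _
      by_cases hk : (k:ℝ) / m < yk Q ν y t x
      · rw [if_pos hk, one_mul]
        exact Set.indicator_of_mem (show x ∈ Blev Q ν y A m k t from Or.inl hk) u
      · rw [if_neg hk, zero_mul]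
        refine Set.indicator_of_notMem ?_ u
        rintro (h | h)
        · exact hk h
        · exact hx h
    rw [sum_congr rfl e, ← sum_mul, Set.indicator_of_notMem hx, mul_zero, add_zero]
    have h1 := count_le (yk Q ν y t x) y0 y1 m hm
    set c := ∑ k ∈ range m, (if (k:ℝ) / m < yk Q ν y t x then (1:ℝ) else 0) with hc
    have h2 : (c - m * yk Q ν y t x) * u x ≤ |u x| := by
      refine (le_abs_self _).trans ?_
      rw [abs_mul]
      exact (mul_le_mul_of_nonneg_right h1 (abs_nonneg _)).trans (by rw [one_mul])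
    linarith

/-- the truncated square integrals -/
theorem sqT_facts {S : Type} [MeasurableSpace S] (ν : Measure S) [IsProbabilityMeasure ν]
    (F : ℝ × S → ℝ) (mF : Measurable F) (lF : MemLp F 2 (nuh ν)) :
    (∀ r0, Measurable (sqT r0 F)) ∧ Integrable (sqT 0 F) ν ∧ (∀ r0 x, 0 ≤ sqT r0 F x) ∧
    ∀ᵐ x ∂ν, ∀ ε : ℝ, 0 < ε → ∀ᶠ n : ℕ in atTop, sqT (1 - 1 / ((n:ℝ) + 2)) F x < ε := by
  have iF : Integrable (fun p => F p ^ 2) (lam.prod ν) := lF.integrable_sq
  refine ⟨fun r0 => ?_, ?_, fun r0 x => ?_, ?_⟩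
  · unfold sqT
    have : Measurable (fun p : S × ℝ => (Set.Ioi r0).indicator (fun r => F (r, p.1) ^ 2) p.2) := by
      have e : (fun p : S × ℝ => (Set.Ioi r0).indicator (fun r => F (r, p.1) ^ 2) p.2) =
          (Prod.snd ⁻¹' (Set.Ioi r0)).indicator (fun p : S × ℝ => F (p.2, p.1) ^ 2) := by
        funext p
        by_cases hp : p.2 ∈ Set.Ioi r0
        · rw [Set.indicator_of_mem hp, Set.indicator_of_mem (show p ∈ Prod.snd ⁻¹' (Set.Ioi r0)
            from hp)]
        · rw [Set.indicator_of_notMem hp, Set.indicator_of_notMem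
            (show p ∉ Prod.snd ⁻¹' (Set.Ioi r0) from hp)]
      rw [e]
      exact Measurable.indicator (by fun_prop) (measurable_snd measurableSet_Ioi)
    exact (this.stronglyMeasurable.integral_prod_right').measurable
  · have h := iF.integral_prod_right
    refine h.congr (Eventually.of_forall fun x => ?_)
    unfold sqT
    refine integral_congr_ae ?_
    have : ∀ᵐ r ∂lam, r ∈ Set.Ioo (0:ℝ) 1 := ae_restrict_mem measurableSet_Ioo
    filter_upwards [this] with r hr
    rw [Set.indicator_of_mem (show r ∈ Set.Ioi (0:ℝ) from hr.1)]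
  · unfold sqT
    refine integral_nonneg fun r => ?_
    exact Set.indicator_nonneg (fun r _ => sq_nonneg _) r
  · have h := iF.prod_left_ae
    filter_upwards [h] with x hx ε hε
    have key : Tendsto (fun n : ℕ => sqT (1 - 1 / ((n:ℝ) + 2)) F x) atTop (𝓝 0) := by
      unfold sqT
      refine setint_tendsto lam (fun n : ℕ => Set.Ioi (1 - 1 / ((n:ℝ) + 2)))
        (fun n => measurableSet_Ioi) ?_ (fun r => F (r, x) ^ 2) hx
      have : ∀ᵐ r ∂lam, r ∈ Set.Ioo (0:ℝ) 1 := ae_restrict_mem measurableSet_Ioo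
      filter_upwards [this] with r hr
      have h1 : 0 < 1 - r := by linarith [hr.2]
      obtain ⟨n0, hn0⟩ := exists_nat_gt (1 / (1 - r))
      filter_upwards [eventually_ge_atTop n0] with n hn
      simp only [Set.mem_Ioi, not_lt]
      have h2 : (n0:ℝ) ≤ n := by exact_mod_cast hn
      have h3 : 1 / ((n:ℝ) + 2) ≤ 1 - r := by
        rw [div_le_iff₀ (by positivity)]
        rw [div_lt_iff₀ h1] at hn0
        nlinarith
      linarith
    exact key.eventually (gt_mem_nhds hε)

end Pool.Agent.N523.ME
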