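import Pool.Agent.N523.ME.LVa

/-!
PROJECT ME (helper939): the main term for the average energy over the level sets.
-/

set_option autoImplicit false
open MeasureTheory ProbabilityTheory Filter Topology Finset
open scoped Classical

namespace Pool.Agent.N523.ME

open Pool.Agent.N939.ME

variable {S : Type} [MeasurableSpace S] (Q : Kernel S S) [IsMarkovKernel Q] (ν : Measure S)
    [IsProbabilityMeasure ν]

theorem prodTT (hHAT : S_HAT) (hTT : S_TT) (hν : ν.bind Q = ν)
    {f : S → ℝ} {Φ Ψ : ℝ × S → ℝ} (hR : Res Q ν f Φ Ψ) :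
    Integrable (fun p => Ψ p * TT (Qh Q) Φ p) (nuh ν) := by
  have hh := (hHAT S Q ν hν).2
  have h1 := ((hTT (ℝ × S) (Qh Q) (nuh ν) hh).2.2.1 Φ hR.lΦ).1
  exact hR.lΨ.integrable_mul h1

theorem ups_int (hHAT : S_HAT) (hTT : S_TT) (hν : ν.bind Q = ν)
    {f : S → ℝ} {Φ Ψ : ℝ × S → ℝ} (hR : Res Q ν f Φ Ψ) :
    Integrable (Ups Q f Φ Ψ) ν ∧ ∫ x, Ups Q f Φ Ψ x ∂ν = sg Q ν f Φ Ψ := by
  have hp := prodTT Q ν hHAT hTT hν hR
  have hp' : Integrable (fun p => Ψ p * TT (Qh Q) Φ p) (lam.prod ν) := hp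
  have i1 : Integrable (fun x => f x ^ 2) ν := hR.lf.integrable_sq
  have i2 : Integrable (fun x => ∫ r, Ψ (r, x) * TT (Qh Q) Φ (r, x) ∂lam) ν :=
    hp'.integral_prod_right
  refine ⟨i1.add (i2.const_mul 2), ?_⟩
  have e : ∫ x, Ups Q f Φ Ψ x ∂ν =
      ∫ x, f x ^ 2 ∂ν + ∫ x, 2 * ∫ r, Ψ (r, x) * TT (Qh Q) Φ (r, x) ∂lam ∂ν :=
    integral_add i1 (i2.const_mul 2)
  rw [e, integral_const_mul, sg]
  congr 2
  have := integral_prod_symm (μ := lam) (ν := ν) (fun p => Ψ p * TT (Qh Q) Φ p) hp'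
  exact this.symm

theorem iter_int (hTT : S_TT) (hν : ν.bind Q = ν) {u : S → ℝ} (hu : Integrable u ν) (t : ℕ) :
    Integrable ((TT Q)^[t] u) ν := by
  induction t with
  | zero => simpa using hu
  | succ t ih =>
    rw [Function.iterate_succ_apply']
    exact ((hTT S Q ν hν).2.1 _ ih).1

theorem main_term (hTT : S_TT) (hBK2 : S_BK2) (hν : ν.bind Q = ν) {u : S → ℝ}
    (hu : Integrable u ν) {A : Set S} (hA : MeasurableSet A) (m n : ℕ) (hm : 0 < m) (hn : 0 < n)
    {y : S → ℝ} (my : Measurable y) (hy : ∀ x, 0 ≤ y x ∧ y x ≤ 1) :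
    ∑ k ∈ range m, ∑ t ∈ range n, ∫ x, (Blev Q ν y A m k t).indicator u x ∂ν ≤
      m * n * ((∫ u' , u u' ∂ν) * ∫ x, y x ∂ν
        + ∫ x, |(∑ t ∈ range n, (TT Q)^[t] u x) / n - ∫ z, u z ∂ν| ∂ν)
      + n * ∫ x, |u x| ∂ν + m * n * ∫ x, A.indicator (fun x => |u x|) x ∂ν := by
  obtain ⟨-, -, hb3, hb4⟩ := hBK2 S Q ν hν
  have mB : ∀ k t, MeasurableSet (Blev Q ν y A m k t) := fun k t =>
    (measurableSet_lt measurable_const (hb3 y t my hy).1).union hA
  have iB : ∀ k t, Integrable (fun x => (Blev Q ν y A m k t).indicator u x) ν := fun k t =>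
    hu.indicator (mB k t)
  have iyu : ∀ t, Integrable (fun x => yk Q ν y t x * u x) ν := fun t =>
    hu.bdd_mul (c := 1) (hb3 y t my hy).1.aestronglyMeasurable
      (Eventually.of_forall fun x => by
        rw [Real.norm_eq_abs, abs_of_nonneg ((hb3 y t my hy).2 x).1]
        exact ((hb3 y t my hy).2 x).2)
  have iA : Integrable (fun x => A.indicator (fun x => |u x|) x) ν := hu.abs.indicator hA
  have step : ∀ t, ∑ k ∈ range m, ∫ x, (Blev Q ν y A m k t).indicator u x ∂ν ≤
      m * (∫ x, y x * (TT Q)^[t] u x ∂ν) + ∫ x, |u x| ∂ν +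
        m * ∫ x, A.indicator (fun x => |u x|) x ∂ν := by
    intro t
    have iS : Integrable (fun x => (m:ℝ) * (yk Q ν y t x * u x) + |u x|) ν :=
      ((iyu t).const_mul _).add hu.abs
    rw [← integral_finsetSum _ (fun k _ => iB k t), ← hb4 y u t my hy hu,
      ← integral_const_mul, ← integral_const_mul, ← integral_add ((iyu t).const_mul _) hu.abs,
      ← integral_add iS (iA.const_mul _)]
    refine integral_mono (integrable_finsetSum _ fun k _ => iB k t)
      (iS.add (iA.const_mul _)) fun x => ?_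
    exact sum_ind_le Q ν y A m t hm (hb3 y t my hy).2 u x
  have n0 : (0:ℝ) < n := by exact_mod_cast hn
  have m0 : (0:ℝ) < m := by exact_mod_cast hm
  rw [sum_comm]
  refine (sum_le_sum fun t _ => step t).trans ?_
  rw [sum_add_distrib, sum_add_distrib, ← mul_sum]
  simp only [sum_const, card_range, nsmul_eq_mul]
  have iT : ∀ t, Integrable ((TT Q)^[t] u) ν := iter_int Q ν hTT hν hu
  have iyT : ∀ t, Integrable (fun x => y x * (TT Q)^[t] u x) ν := fun t =>
    (iT t).bdd_mul (c := 1) my.aestronglyMeasurable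
      (Eventually.of_forall fun x => by
        rw [Real.norm_eq_abs, abs_of_nonneg (hy x).1]
        exact (hy x).2)
  set c := ∫ z, u z ∂ν with hc
  set av : S → ℝ := fun x => (∑ t ∈ range n, (TT Q)^[t] u x) / n with hav
  have iav : Integrable av ν := (integrable_finsetSum _ fun t _ => iT t).div_const _
  have iavc : Integrable (fun x => |av x - c|) ν := (iav.sub (integrable_const c)).abs
  have iy : Integrable y ν := by
    refine Integrable.of_bound my.aestronglyMeasurable 1 (Eventually.of_forall fun x => ?_)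
    rw [Real.norm_eq_abs, abs_of_nonneg (hy x).1]
    exact (hy x).2
  have hsum : ∑ t ∈ range n, ∫ x, y x * (TT Q)^[t] u x ∂ν ≤
      n * (c * ∫ x, y x ∂ν + ∫ x, |av x - c| ∂ν) := by
    rw [← integral_finsetSum _ (fun t _ => iyT t)]
    have e1 : n * (c * ∫ x, y x ∂ν + ∫ x, |av x - c| ∂ν) =
        ∫ x, (n * (c * y x + |av x - c|)) ∂ν := by
      rw [integral_const_mul, integral_add (iy.const_mul _) iavc, integral_const_mul]
    rw [e1]
    refine integral_mono (integrable_finsetSum _ fun t _ => iyT t)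
      (((iy.const_mul _).add iavc).const_mul _) fun x => ?_
    have e2 : ∑ t ∈ range n, y x * (TT Q)^[t] u x = n * (y x * av x) := by
      rw [← mul_sum, hav]
      field_simp
    show ∑ t ∈ range n, y x * (TT Q)^[t] u x ≤ n * (c * y x + |av x - c|)
    rw [e2]
    refine mul_le_mul_of_nonneg_left ?_ n0.le
    have e3 : y x * (av x - c) ≤ 1 * |av x - c| :=
      (mul_le_mul_of_nonneg_left (le_abs_self _) (hy x).1).trans
        (mul_le_mul_of_nonneg_right (hy x).2 (abs_nonneg _))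
    linarith
  have := mul_le_mul_of_nonneg_left hsum m0.le
  have e4 : (n:ℝ) * (m * ∫ x, A.indicator (fun x => |u x|) x ∂ν) =
    m * n * ∫ x, A.indicator (fun x => |u x|) x ∂ν := by ring
  rw [e4]
  linarith

end Pool.Agent.N523.ME
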