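import Pool.Agent.N523.ME.UIb

/-!
PROJECT ME (helper939): uniform integrability of `S_N²/N` (S_UI).
-/

set_option autoImplicit false
open MeasureTheory ProbabilityTheory Filter Topology Finset
open scoped Classical

namespace Pool.Agent.N523.ME

open Pool.Agent.N939.ME

theorem ev_le (a : ℕ → ℝ) (ha : Tendsto (fun j : ℕ => a j / j) atTop (𝓝 0)) (ε : ℝ)
    (hε : 0 < ε) : ∀ᶠ N : ℕ in atTop, ∀ j ≤ N, a j ≤ ε * N := by
  obtain ⟨j1, hj1⟩ := eventually_atTop.1
    ((ha.eventually (gt_mem_nhds hε)).and (eventually_ge_atTop 1))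
  obtain ⟨n0, hn0⟩ := exists_nat_gt ((∑ j ∈ range j1, |a j|) / ε)
  filter_upwards [eventually_ge_atTop n0] with N hN j hj
  by_cases h : j1 ≤ j
  · obtain ⟨h1, h2⟩ := hj1 j h
    have h3 : (0:ℝ) < j := by exact_mod_cast h2
    rw [div_lt_iff₀ h3] at h1
    have h4 : (j:ℝ) ≤ N := by exact_mod_cast hj
    nlinarith
  · have h1 : |a j| ≤ ∑ j ∈ range j1, |a j| :=
      single_le_sum (f := fun j => |a j|) (fun _ _ => abs_nonneg _) (mem_range.2 (not_le.1 h))
    rw [div_lt_iff₀ hε] at hn0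
    have h4 : (n0:ℝ) ≤ N := by exact_mod_cast hN
    have := le_abs_self (a j)
    nlinarith

theorem split4 (s u w b : ℝ) (hb : 0 < b) (hs : s = w + u) (h : b < s ^ 2) :
    s ^ 2 ≤ 4 * u ^ 2 + 16 / b * w ^ 4 := by
  have h1 : s ^ 2 ≤ 2 * u ^ 2 + 2 * w ^ 2 := by
    rw [hs]; nlinarith [sq_nonneg (w - u)]
  have h0 : 0 ≤ 16 / b * w ^ 4 := by positivity
  by_cases hc : w ^ 2 ≤ u ^ 2
  · linarith
  · push Not at hc
    have h2 : s ^ 2 ≤ 4 * w ^ 2 := by linarith
    have h3 : b ≤ 4 * w ^ 2 := by linarith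
    have h4 : 4 * w ^ 2 ≤ 16 / b * w ^ 4 := by
      rw [div_mul_eq_mul_div, le_div_iff₀ hb]
      have : 0 ≤ w ^ 2 := sq_nonneg w
      nlinarith
    have : 0 ≤ u ^ 2 := sq_nonneg u
    linarith

theorem ui (hHAT : S_HAT) (hTT : S_TT) (hML : S_ML) (hEN : S_EN) (hSM : S_SM) (hON : S_ON)
    (hD : S_D) (hG1 : S_G1) (hG2 : S_G2) (hG3 : S_G3) : S_UI := by
  intro S _ Q _ ν _ hν f Φ Ψ hR Ω _ μ _ X hX η hη
  obtain ⟨-, -, C0, hC0, hC⟩ := hG3 S Q ν hν f Φ Ψ hR Ω μ X hX
  obtain ⟨mΦ, iΦ, nΦ, -⟩ := sqT_facts ν Φ hR.mΦ hR.lΦ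
  obtain ⟨mΨ, iΨ, nΨ, -⟩ := sqT_facts ν Ψ hR.mΨ hR.lΨ
  have hh := (hHAT S Q ν hν).2
  have mT : Measurable (TT (Qh Q) Φ) := (hTT (ℝ × S) (Qh Q) (nuh ν) hh).1 Φ hR.mΦ
  have lT : MemLp (TT (Qh Q) Φ) 2 (nuh ν) := ((hTT (ℝ × S) (Qh Q) (nuh ν) hh).2.2.1 Φ hR.lΦ).1
  obtain ⟨mTs, iTs, nTs, -⟩ := sqT_facts ν (TT (Qh Q) Φ) mT lT
  have iΦ2 : Integrable (fun p => Φ p ^ 2) (nuh ν) := hR.lΦ.integrable_sq
  have iΨ2 : Integrable (fun p => Ψ p ^ 2) (nuh ν) := hR.lΨ.integrable_sq
  have if2 : Integrable (fun x => f x ^ 2) ν := hR.lf.integrable_sq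
  set kap : S → ℝ := fun x => f x ^ 2 + 2 * sqT 0 Ψ x + 2 * sqT 0 (TT (Qh Q) Φ) x with hkap
  have ik : Integrable kap ν := (if2.add (iΨ.const_mul 2)).add (iTs.const_mul 2)
  have mk : Measurable kap := ((hR.mf.pow_const 2).add ((mΨ 0).const_mul 2)).add
    ((mTs 0).const_mul 2)
  have nk : ∀ x, 0 ≤ kap x := fun x => by
    have h1 := nΨ 0 x
    have h2 := nTs 0 x
    have h3 := sq_nonneg (f x)
    show 0 ≤ f x ^ 2 + 2 * sqT 0 Ψ x + 2 * sqT 0 (TT (Qh Q) Φ) x
    linarith
  set e := η / 56000 with he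
  have e0 : 0 < e := by positivity
  obtain ⟨M, M1, hM1, hM2⟩ := choose_M ν (sqT 0 Φ) (sqT 0 Ψ) kap (mΦ 0) (mΨ 0) iΦ iΨ ik (nΦ 0)
    (nΨ 0) nk e e0
  have M0 : 0 ≤ M := by linarith
  obtain ⟨κ, κ0, hκ⟩ := abs_cont ν kap mk ik M e M0 e0
  set A0 : Set S := {x | M < sqT 0 Φ x} ∪ {x | M < sqT 0 Ψ x} with hA0
  have mA0 : MeasurableSet A0 := (measurableSet_lt measurable_const (mΦ 0)).union
        (measurableSet_lt measurable_const (mΨ 0))
  set L := 2 * C0 / κ with hL
  have L0 : 0 < L := by positivity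
  have g1 := (hG1 S Q ν hν f hR.mf hR.lf).1
  obtain ⟨g2, -, -, g5⟩ := (hG1 S Q ν hν f hR.mf hR.lf).2 Ω μ X hX
  set C : ℕ → ℕ → Set S := fun N t => {x | L * N < VV Q f (N - t) x} ∪
    {x | Real.sqrt (e * N) < |GG Q f (N - t) x|} with hCdef
  have mC : ∀ N t, MeasurableSet (C N t) := fun N t =>
    (measurableSet_lt measurable_const (g1 (N - t)).2.2.1).union
      (measurableSet_lt measurable_const (g1 (N - t)).1.abs)
  set B : ℕ → ℕ → Set S := fun N t => A0 ∪ C N t with hB
  have mB : ∀ N t, MeasurableSet (B N t) := fun N t => mA0.union (mC N t)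
  -- small sets
  have hG := ev_le (fun j => ∫ x, GG Q f j x ^ 2 ∂ν) (hG2 S Q ν hν f Φ Ψ hR) (κ * e / 2)
    (by positivity)
  have small : ∀ᶠ N : ℕ in atTop, ∀ t, ν.real (C N t) ≤ κ := by
    filter_upwards [hG, eventually_ge_atTop 1] with N hN hN1 t
    have n0 : (0:ℝ) < N := by exact_mod_cast hN1
    have hj : ((N - t : ℕ) : ℝ) ≤ N := by exact_mod_cast Nat.sub_le N t
    have p1 : ν.real {x | L * N < VV Q f (N - t) x} ≤ κ / 2 := by
      have h1 := mul_meas_ge_le_integral_of_nonneg (g2 (N - t)) (g1 (N - t)).2.2.2 (L * N)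
      have h2 : ∫ x, VV Q f (N - t) x ∂ν ≤ C0 * N := by
        rw [← g5 (N - t)]
        exact (hC (N - t)).trans (mul_le_mul_of_nonneg_left hj hC0.le)
      have h3 : ν.real {x | L * N < VV Q f (N - t) x} ≤ ν.real {x | L * N ≤ VV Q f (N - t) x} :=
        measureReal_mono fun x (hx : L * N < VV Q f (N - t) x) => hx.le
      have h4 : L * N * ν.real {x | L * N < VV Q f (N - t) x} ≤ C0 * N :=
        ((mul_le_mul_of_nonneg_left h3 (by positivity)).trans h1).trans h2
      have h5 : L * κ = 2 * C0 := by rw [hL]; field_simp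
      by_contra hcon
      push Not at hcon
      have h6 : L * N * (κ / 2) < L * N * ν.real {x | L * N < VV Q f (N - t) x} :=
        mul_lt_mul_of_pos_left hcon (by positivity)
      have h7 : L * N * (κ / 2) = C0 * N := by
        calc L * N * (κ / 2) = (L * κ) * N / 2 := by ring
          _ = _ := by rw [h5]; ring
      linarith
    have p2 : ν.real {x | Real.sqrt (e * N) < |GG Q f (N - t) x|} ≤ κ / 2 := by
      have h1 := mul_meas_ge_le_integral_of_nonneg
        (f := fun x => GG Q f (N - t) x ^ 2) (μ := ν)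
        (Eventually.of_forall fun x => sq_nonneg _) (g1 (N - t)).2.1.integrable_sq (e * N)
      have h2 : ∫ x, GG Q f (N - t) x ^ 2 ∂ν ≤ κ * e / 2 * N := hN (N - t) (Nat.sub_le N t)
      have h3 : ν.real {x | Real.sqrt (e * N) < |GG Q f (N - t) x|} ≤
          ν.real {x | e * N ≤ GG Q f (N - t) x ^ 2} := by
        refine measureReal_mono fun x hx => ?_
        have hx' : Real.sqrt (e * N) < |GG Q f (N - t) x| := hx
        show e * N ≤ GG Q f (N - t) x ^ 2
        rw [← sq_abs]
        rw [Real.sqrt_lt' (lt_of_le_of_lt (Real.sqrt_nonneg _) hx')] at hx'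
        exact hx'.le
      have h4 : e * N * ν.real {x | Real.sqrt (e * N) < |GG Q f (N - t) x|} ≤ κ * e / 2 * N :=
        ((mul_le_mul_of_nonneg_left h3 (by positivity)).trans h1).trans h2
      by_contra hcon
      push Not at hcon
      have h6 : e * N * (κ / 2) < e * N * ν.real {x | Real.sqrt (e * N) < |GG Q f (N - t) x|} :=
        mul_lt_mul_of_pos_left hcon (by positivity)
      linarith
    refine (measureReal_union_le _ _).trans ?_
    linarith
  -- expected energy
  set O : ℕ → ℝ := fun n => ∫ p, (Φ p ^ 2 + Ψ p ^ 2) * ∑ i ∈ range n, p.1 ^ (2 * i) ∂(nuh ν)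
    with hO
  have t2 : ∀ᶠ n : ℕ in atTop, O n / n < e / 4 :=
    (hON S ν (fun p => Φ p ^ 2 + Ψ p ^ 2) (iΦ2.add iΨ2)).eventually
      (gt_mem_nhds (by positivity))
  have energy : ∀ᶠ N : ℕ in atTop, enu Q ν f (B N) N ≤ 5 * e * N := by
    filter_upwards [small, t2, eventually_ge_atTop 1] with N hN hN2 hN1
    have n0 : (0:ℝ) < N := by exact_mod_cast hN1
    refine (hSM S Q ν hν f Φ Ψ hR M M0 (B N) (mB N) (fun t => Eventually.of_forall fun x hx =>
      ⟨not_lt.1 fun h => hx (Or.inl (Or.inl h)), not_lt.1 fun h => hx (Or.inl (Or.inr h))⟩)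
      N).trans ?_
    have s1 : ∀ t ∈ range N, ∫ x, (B N t).indicator
          (fun x => f x ^ 2 + 2 * sqT 0 Ψ x + 2 * sqT 0 (TT (Qh Q) Φ) x) x ∂ν
          + 8 * M * ν.real (B N t) ≤ 4 * e := by
      intro t _
      obtain ⟨c1, c2⟩ := hκ (C N t) (mC N t) (hN t)
      have d1 : ∫ x, (B N t).indicator kap x ∂ν ≤ 2 * e := by
        have d2 : ∫ x, (B N t).indicator kap x ∂ν ≤
            ∫ x, (A0.indicator kap x + (C N t).indicator kap x) ∂ν := by
          refine integral_mono (ik.indicator (mB N t))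
            ((ik.indicator mA0).add (ik.indicator (mC N t))) fun x => ?_
          show (B N t).indicator kap x ≤ A0.indicator kap x + (C N t).indicator kap x
          have p0 : 0 ≤ A0.indicator kap x := Set.indicator_nonneg (fun _ _ => nk _) x
          have p1 : 0 ≤ (C N t).indicator kap x := Set.indicator_nonneg (fun _ _ => nk _) x
          by_cases h0 : x ∈ A0
          · have hx : x ∈ B N t := Or.inl h0
            rw [Set.indicator_of_mem hx, Set.indicator_of_mem h0]
            linarith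
          · by_cases h1 : x ∈ C N t
            · have hx : x ∈ B N t := Or.inr h1
              rw [Set.indicator_of_mem hx, Set.indicator_of_mem h1]
              linarith
            · have hx : x ∉ B N t := fun h => h.elim h0 h1
              rw [Set.indicator_of_notMem hx]
              linarith
        rw [integral_add (ik.indicator mA0) (ik.indicator (mC N t))] at d2
        linarith
      have d3 : 8 * M * ν.real (B N t) ≤ 2 * e := by
        have := measureReal_union_le (μ := ν) A0 (C N t)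
        have := mul_le_mul_of_nonneg_left this (show 0 ≤ 8 * M by positivity)
        have h5 : 8 * M * ν.real (B N t) ≤ 8 * M * (ν.real A0 + ν.real (C N t)) := this
        linarith
      have d4 : ∫ x, (B N t).indicator
          (fun x => f x ^ 2 + 2 * sqT 0 Ψ x + 2 * sqT 0 (TT (Qh Q) Φ) x) x ∂ν ≤ 2 * e := d1
      linarith
    have s2 := sum_le_sum s1
    rw [sum_const (4 * e), card_range, nsmul_eq_mul] at s2
    rw [div_lt_iff₀ n0] at hN2
    have s3 : 4 * O N ≤ e * N := by linarith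
    have s4 : 4 * ∫ p, (Φ p ^ 2 + Ψ p ^ 2) * ∑ i ∈ range N, p.1 ^ (2 * i) ∂(nuh ν) ≤ e * N := s3
    linarith
  -- tail of f
  have tail : ∀ᶠ N : ℕ in atTop,
      ∫ x, (if Real.sqrt (e * N) < |f x| then f x ^ 2 else 0) ∂ν ≤ e := by
    have ht := setint_tendsto ν (fun N : ℕ => {x | Real.sqrt (e * N) < |f x|})
      (fun n => measurableSet_lt measurable_const hR.mf.abs)
      (Eventually.of_forall fun x => by
        have h1 : Tendsto (fun N : ℕ => Real.sqrt (e * N)) atTop atTop :=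
          Real.tendsto_sqrt_atTop.comp (tendsto_natCast_atTop_atTop.const_mul_atTop e0)
        filter_upwards [h1.eventually_ge_atTop (|f x|)] with n hn h
        have : Real.sqrt (e * n) < |f x| := h
        linarith)
      (fun x => f x ^ 2) if2
    filter_upwards [ht.eventually (gt_mem_nhds e0)] with N hN
    refine (le_of_eq ?_).trans hN.le
    congr 1
  obtain ⟨N0, hN0⟩ := eventually_atTop.1 (small.and (energy.and (tail.and
    (eventually_ge_atTop 1))))
  set C2 := 10000 * (e * L + L ^ 2) with hC2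
  have C20 : 0 ≤ C2 := by positivity
  -- finitely many
  have iS : ∀ N, Integrable (fun ω => SS f X N ω ^ 2) μ := fun N =>
    (memSS Q ν μ X hML hν hX hR.lf N).integrable_sq
  have mS : ∀ N, Measurable (SS f X N) := fun N => by
    have := (adapS (X := X) hR.mf (show N ≤ N + 1 by omega)).measurable
    exact this.mono (FX_le hX.meas N) le_rfl
  have fin : ∀ᶠ R : ℕ in atTop, ∀ N ∈ range N0,
      ∫ ω, (if (R:ℝ) * N < SS f X N ω ^ 2 then SS f X N ω ^ 2 else 0) ∂μ ≤ η * N := by
    rw [eventually_all_finset]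
    intro N _
    rcases Nat.eq_zero_or_pos N with h0 | h0
    · subst h0
      refine Eventually.of_forall fun R => ?_
      simp [SS]
    · have n0 : (0:ℝ) < N := by exact_mod_cast h0
      have ht := setint_tendsto μ (fun R : ℕ => {ω | (R:ℝ) * N < SS f X N ω ^ 2})
        (fun n => measurableSet_lt measurable_const ((mS N).pow_const 2))
        (Eventually.of_forall fun ω => by
          have h1 : Tendsto (fun R : ℕ => (R:ℝ) * N) atTop atTop :=
            tendsto_natCast_atTop_atTop.atTop_mul_const n0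
          filter_upwards [h1.eventually_ge_atTop (SS f X N ω ^ 2)] with n hn h
          have : (n:ℝ) * N < SS f X N ω ^ 2 := h
          linarith)
        (fun ω => SS f X N ω ^ 2) (iS N)
      filter_upwards [ht.eventually (gt_mem_nhds (show (0:ℝ) < η * N by positivity))] with R hR'
      refine (le_of_eq ?_).trans hR'.le
      congr 1
  obtain ⟨R1, hR1⟩ := exists_nat_gt (32 * C2 / η)
  obtain ⟨R, hRfin, hR2⟩ := (fin.and (eventually_ge_atTop (R1 + 1))).exists
  have R0 : (0:ℝ) < R := by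
    have : 0 < R := by omega
    exact_mod_cast this
  have hRR : 32 * C2 ≤ η * R := by
    have h1 : (R1:ℝ) ≤ R := by
      have : R1 ≤ R := by omega
      exact_mod_cast this
    rw [div_lt_iff₀ hη] at hR1
    nlinarith
  refine ⟨R, R0, fun N => ?_⟩
  by_cases hN : N < N0
  · exact hRfin N (mem_range.2 hN)
  · push Not at hN
    obtain ⟨h1, h2, h3, h4⟩ := hN0 N hN
    have n0 : (0:ℝ) < N := by exact_mod_cast h4
    obtain ⟨W, U, mW, mU, lU, lW, hWU, hU, hW⟩ := decomp Q ν μ X hML hEN hD hG1 hν hX hR.mf hR.lf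
      N (B N) (mB N) (Real.sqrt (e * N)) (L * N) (Real.sqrt_nonneg _) (by positivity)
      (fun t _ x hx => ⟨not_lt.1 fun h => hx (Or.inr (Or.inr h)),
        not_lt.1 fun h => hx (Or.inr (Or.inl h))⟩)
    have hw2 : Real.sqrt (e * N) ^ 2 = e * N := Real.sq_sqrt (by positivity)
    rw [hw2] at hU hW
    have hU' : ∫ ω, U ω ^ 2 ∂μ ≤ 7000 * e * N := by
      have := mul_le_mul_of_nonneg_left h3 n0.le
      refine hU.trans ?_
      linarith
    have hW' : ∫ ω, W ω ^ 4 ∂μ ≤ C2 * (N * N) := by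
      refine hW.trans (le_of_eq ?_)
      rw [hC2]; ring
    have iU : Integrable (fun ω => U ω ^ 2) μ := lU.integrable_sq
    have iW : Integrable (fun ω => W ω ^ 4) μ := by
      have h5 : MemLp W ((4:ℕ):ENNReal) μ := by exact_mod_cast lW
      have h6 := h5.integrable_norm_pow (by norm_num)
      refine h6.congr (Eventually.of_forall fun ω => ?_)
      show ‖W ω‖ ^ 4 = W ω ^ 4
      rw [Real.norm_eq_abs, Even.pow_abs (by decide)]
    have hb : 0 < (R:ℝ) * N := by positivity
    have h7 : ∫ ω, (if (R:ℝ) * N < SS f X N ω ^ 2 then SS f X N ω ^ 2 else 0) ∂μ ≤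
        ∫ ω, (4 * U ω ^ 2 + 16 / (R * N) * W ω ^ 4) ∂μ := by
      refine integral_mono_of_nonneg (Eventually.of_forall fun ω => ?_)
        ((iU.const_mul 4).add (iW.const_mul _)) ?_
      · show 0 ≤ (if (R:ℝ) * N < SS f X N ω ^ 2 then SS f X N ω ^ 2 else 0)
        split_ifs
        · exact sq_nonneg _
        · exact le_refl _
      · filter_upwards [hWU] with ω hω
        show (if (R:ℝ) * N < SS f X N ω ^ 2 then SS f X N ω ^ 2 else 0) ≤
          4 * U ω ^ 2 + 16 / (R * N) * W ω ^ 4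
        split_ifs with h
        · exact split4 _ _ _ _ hb hω h
        · positivity
    rw [integral_add (iU.const_mul 4) (iW.const_mul _), integral_const_mul,
      integral_const_mul] at h7
    have h8 : 16 / (R * N) * ∫ ω, W ω ^ 4 ∂μ ≤ η / 2 * N := by
      have h9 := mul_le_mul_of_nonneg_left hW' (show 0 ≤ 16 / ((R:ℝ) * N) by positivity)
      refine h9.trans ?_
      have h10 : 16 / ((R:ℝ) * N) * (C2 * (N * N)) = 16 * C2 * N / R := by
        field_simp
      rw [h10, div_le_iff₀ R0]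
      have := mul_le_mul_of_nonneg_right hRR n0.le
      linarith
    have h11 : 4 * ∫ ω, U ω ^ 2 ∂μ ≤ η / 2 * N := by
      have : 4 * (7000 * e * N) = η / 2 * N := by rw [he]; ring
      linarith
    linarith

end Pool.Agent.N523.ME
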