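import Pool.Agent.N523.ME.LVa

/-!
PROJECT ME (helper939): auxiliary facts for the uniform integrability (S_UI).
-/

set_option autoImplicit false
open MeasureTheory ProbabilityTheory Filter Topology Finset
open scoped Classical

namespace Pool.Agent.N523.ME

open Pool.Agent.N939.ME

/-- absolute continuity of the integral -/
theorem abs_cont {S : Type} [MeasurableSpace S] (ν : Measure S) [IsProbabilityMeasure ν]
    (k : S → ℝ) (mk : Measurable k) (hk : Integrable k ν) (M η : ℝ) (hM : 0 ≤ M) (hη : 0 < η) :
    ∃ κ : ℝ, 0 < κ ∧ ∀ C : Set S, MeasurableSet C → ν.real C ≤ κ →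
      ∫ x, C.indicator k x ∂ν ≤ η ∧ 8 * M * ν.real C ≤ η := by
  have ht := setint_tendsto ν (fun n : ℕ => {x | (n:ℝ) < |k x|})
      (fun n => measurableSet_lt measurable_const mk.abs)
      (Eventually.of_forall fun x => by
        obtain ⟨n0, hn0⟩ := exists_nat_gt (|k x|)
        filter_upwards [eventually_ge_atTop n0] with n hn
        have h2 : (n0:ℝ) ≤ n := by exact_mod_cast hn
        intro h
        have : (n:ℝ) < |k x| := h
        linarith)
      (fun x => |k x|) hk.abs
  obtain ⟨L, hL⟩ := (ht.eventually (gt_mem_nhds (show (0:ℝ) < η / 2 by positivity))).exists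
  have L0 : (0:ℝ) ≤ L := Nat.cast_nonneg L
  set T : Set S := {x | (L:ℝ) < |k x|} with hT
  have mT : MeasurableSet T := measurableSet_lt measurable_const mk.abs
  refine ⟨η / (2 * (L + 8 * M + 1)), by positivity, ?_⟩
  intro C hC hν
  have hd : η / (2 * (L + 8 * M + 1)) * (L + 8 * M + 1) = η / 2 := by field_simp
  have c0 : 0 ≤ ν.real C := measureReal_nonneg
  have h1 : (L + 8 * M + 1) * ν.real C ≤ η / 2 := by
    rw [← hd, mul_comm]
    exact mul_le_mul_of_nonneg_right hν (by positivity)
  constructor
  · have e1 : ∫ x, C.indicator k x ∂ν ≤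
        ∫ x, (C.indicator (fun _ => (L:ℝ)) x + T.indicator (fun x => |k x|) x) ∂ν := by
      refine integral_mono (hk.indicator hC)
        (((integrable_const (L:ℝ)).indicator hC).add (hk.abs.indicator mT)) fun x => ?_
      show C.indicator k x ≤ C.indicator (fun _ => (L:ℝ)) x + T.indicator (fun x => |k x|) x
      have t0 : 0 ≤ T.indicator (fun x => |k x|) x :=
        Set.indicator_nonneg (fun _ _ => abs_nonneg _) x
      by_cases hx : x ∈ C
      · rw [Set.indicator_of_mem hx, Set.indicator_of_mem hx]
        by_cases hy : x ∈ T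
        · rw [Set.indicator_of_mem hy]
          linarith [le_abs_self (k x)]
        · rw [Set.indicator_of_notMem hy]
          have : |k x| ≤ L := not_lt.1 hy
          linarith [le_abs_self (k x)]
      · rw [Set.indicator_of_notMem hx, Set.indicator_of_notMem hx]
        linarith
    have e2 : ∫ x, (C.indicator (fun _ => (L:ℝ)) x + T.indicator (fun x => |k x|) x) ∂ν =
        L * ν.real C + ∫ x, T.indicator (fun x => |k x|) x ∂ν := by
      rw [integral_add ((integrable_const (L:ℝ)).indicator hC) (hk.abs.indicator mT),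
        integral_indicator hC, setIntegral_const, smul_eq_mul, mul_comm]
    rw [e2] at e1
    nlinarith
  · nlinarith

theorem choose_M {S : Type} [MeasurableSpace S] (ν : Measure S) [IsProbabilityMeasure ν]
    (a b k : S → ℝ) (ma : Measurable a) (mb : Measurable b) (ia : Integrable a ν)
    (ib : Integrable b ν) (ik : Integrable k ν) (na : ∀ x, 0 ≤ a x) (nb : ∀ x, 0 ≤ b x)
    (nk : ∀ x, 0 ≤ k x) (η : ℝ) (hη : 0 < η) :
    ∃ M : ℝ, 1 ≤ M ∧ ∫ x, ({x | M < a x} ∪ {x | M < b x}).indicator k x ∂ν ≤ η ∧
      8 * M * ν.real ({x | M < a x} ∪ {x | M < b x}) ≤ η := by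
  have ht := setint_tendsto ν (fun n : ℕ => {x | (n:ℝ) < a x} ∪ {x | (n:ℝ) < b x})
      (fun n => (measurableSet_lt measurable_const ma).union (measurableSet_lt measurable_const mb))
      (Eventually.of_forall fun x => by
        obtain ⟨n0, hn0⟩ := exists_nat_gt (max (a x) (b x))
        filter_upwards [eventually_ge_atTop n0] with n hn
        have h2 : (n0:ℝ) ≤ n := by exact_mod_cast hn
        have h3 := le_max_left (a x) (b x)
        have h4 := le_max_right (a x) (b x)
        rintro (h | h)
        · have : (n:ℝ) < a x := h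
          linarith
        · have : (n:ℝ) < b x := h
          linarith)
      (fun x => 8 * (a x + b x) + k x) (((ia.add ib).const_mul 8).add ik)
  obtain ⟨n, hn1, hn2⟩ := ((ht.eventually (gt_mem_nhds hη)).and (eventually_ge_atTop 1)).exists
  refine ⟨n, by exact_mod_cast hn2, ?_, ?_⟩
  · set A : Set S := {x | (n:ℝ) < a x} ∪ {x | (n:ℝ) < b x} with hA
    have mA : MeasurableSet A :=
      (measurableSet_lt measurable_const ma).union (measurableSet_lt measurable_const mb)
    refine (integral_mono (ik.indicator mA)
      ((((ia.add ib).const_mul 8).add ik).indicator mA) fun x => ?_).trans hn1.le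
    refine Set.indicator_le_indicator ?_
    show k x ≤ 8 * (a x + b x) + k x
    linarith [na x, nb x]
  · set A : Set S := {x | (n:ℝ) < a x} ∪ {x | (n:ℝ) < b x} with hA
    have mA : MeasurableSet A :=
      (measurableSet_lt measurable_const ma).union (measurableSet_lt measurable_const mb)
    have e : 8 * (n:ℝ) * ν.real A = ∫ x, A.indicator (fun _ => 8 * (n:ℝ)) x ∂ν := by
      rw [integral_indicator mA, setIntegral_const, smul_eq_mul, mul_comm]
    rw [e]
    refine (integral_mono ((integrable_const _).indicator mA)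
      ((((ia.add ib).const_mul 8).add ik).indicator mA) fun x => ?_).trans hn1.le
    by_cases hx : x ∈ A
    · show A.indicator (fun _ => 8 * (n:ℝ)) x ≤ A.indicator (fun x => 8 * (a x + b x) + k x) x
      rw [Set.indicator_of_mem hx, Set.indicator_of_mem hx]
      have h5 := na x
      have h6 := nb x
      have h7 := nk x
      rcases hx with h | h
      · have : (n:ℝ) < a x := h
        linarith
      · have : (n:ℝ) < b x := h
        linarith
    · show A.indicator (fun _ => 8 * (n:ℝ)) x ≤ A.indicator (fun x => 8 * (a x + b x) + k x) x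
      rw [Set.indicator_of_notMem hx, Set.indicator_of_notMem hx]

section path

variable {S : Type} [mS : MeasurableSpace S] {Ω : Type} [mΩ : MeasurableSpace Ω]
  {X : ℕ → Ω → S}

theorem adap {g : S → ℝ} (mg : Measurable g) {i t : ℕ} (h : i ≤ t) :
    Measurable[FX X t] (fun ω => g (X i ω)) := by
  have h1 : Measurable[MeasurableSpace.comap (X i) mS] (X i) := comap_measurable (X i)
  have h2 : MeasurableSpace.comap (X i) mS ≤ FX X t := le_iSup₂_of_le i h le_rfl
  exact mg.comp (h1.mono h2 le_rfl)

theorem adapS {f : S → ℝ} (mf : Measurable f) {n t : ℕ} (h : n ≤ t + 1) :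
    StronglyMeasurable[FX X t] (SS f X n) := by
  unfold SS
  refine Measurable.stronglyMeasurable ?_
  refine @Finset.measurable_sum _ _ _ _ _ _ (FX X t) _ _ fun i hi => ?_
  have := mem_range.1 hi
  exact adap mf (by omega)

theorem FX_le (hX : ∀ i, Measurable (X i)) (t : ℕ) : FX X t ≤ mΩ :=
  iSup₂_le fun i _ => (hX i).comap_le

theorem SS_split (f : S → ℝ) (X : ℕ → Ω → S) {t N : ℕ} (h : t ≤ N) (ω : Ω) :
    SS f X N ω = SS f X t ω + ∑ i ∈ range (N - t), f (X (t + i) ω) := by
  unfold SS
  conv_lhs => rw [show N = t + (N - t) by omega]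
  rw [sum_range_add]

end path

end Pool.Agent.N523.ME
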