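import Pool.Agent.N523.ME.UIa

/-!
PROJECT ME (helper939): the martingale for the uniform integrability (S_UI).
-/

set_option autoImplicit false
open MeasureTheory ProbabilityTheory Filter Topology Finset
open scoped Classical

namespace Pool.Agent.N523.ME

open Pool.Agent.N939.ME

variable {S : Type} [mS : MeasurableSpace S] (Q : Kernel S S) [IsMarkovKernel Q] (ν : Measure S)
    [IsProbabilityMeasure ν] {Ω : Type} [mΩ : MeasurableSpace Ω] (μ : Measure Ω)
    [IsProbabilityMeasure μ] (X : ℕ → Ω → S)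

theorem mp (hML : S_ML) (hν : ν.bind Q = ν) (hX : MC Q ν μ X) (n : ℕ) :
    MeasurePreserving (X n) μ ν := ⟨hX.meas n, (hML S Q ν hν Ω μ X hX).1 n⟩

theorem memSum (hML : S_ML) (hν : ν.bind Q = ν) (hX : MC Q ν μ X) {f : S → ℝ}
    (lf : MemLp f 2 ν) (t n : ℕ) : MemLp (fun ω => ∑ i ∈ range n, f (X (t + i) ω)) 2 μ := by
  refine memLp_finsetSum _ fun i _ => ?_
  exact lf.comp_measurePreserving (mp Q ν μ X hML hν hX (t + i))

theorem memSS (hML : S_ML) (hν : ν.bind Q = ν) (hX : MC Q ν μ X) {f : S → ℝ}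
    (lf : MemLp f 2 ν) (n : ℕ) : MemLp (SS f X n) 2 μ := by
  have := memSum Q ν μ X hML hν hX lf 0 n
  simp only [zero_add] at this
  exact this

/-- the martingale -/
noncomputable def Mt (f : S → ℝ) (N t : ℕ) : Ω → ℝ := μ[SS f X N | FX X t]

theorem Mt_N (hML : S_ML) (hν : ν.bind Q = ν) (hX : MC Q ν μ X) {f : S → ℝ} (mf : Measurable f)
    (lf : MemLp f 2 ν) (N : ℕ) : Mt μ X f N N = SS f X N := by
  unfold Mt
  exact condExp_of_stronglyMeasurable (FX_le hX.meas N) (adapS mf (by omega))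
    ((memSS Q ν μ X hML hν hX lf N).integrable one_le_two)

theorem Mt_t (hML : S_ML) (hG1 : S_G1) (hν : ν.bind Q = ν) (hX : MC Q ν μ X) {f : S → ℝ}
    (mf : Measurable f) (lf : MemLp f 2 ν) {N t : ℕ} (ht : t ≤ N) :
    Mt μ X f N t =ᵐ[μ] fun ω => SS f X t ω + GG Q f (N - t) (X t ω) := by
  have iY := (memSum Q ν μ X hML hν hX lf t (N - t)).integrable one_le_two
  have iS := (memSS Q ν μ X hML hν hX lf t).integrable one_le_two
  have e : SS f X N = SS f X t + fun ω => ∑ i ∈ range (N - t), f (X (t + i) ω) := by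
    funext ω
    exact SS_split f X ht ω
  unfold Mt
  rw [e]
  refine (condExp_add iS iY (FX X t)).trans ?_
  rw [condExp_of_stronglyMeasurable (FX_le hX.meas t) (adapS mf (by omega)) iS]
  have h2 := ((hG1 S Q ν hν f mf lf).2 Ω μ X hX).2.1 t (N - t)
  filter_upwards [h2] with ω hω
  rw [Pi.add_apply, hω]

theorem Mt_V (hML : S_ML) (hG1 : S_G1) (hν : ν.bind Q = ν) (hX : MC Q ν μ X) {f : S → ℝ}
    (mf : Measurable f) (lf : MemLp f 2 ν) {N t : ℕ} (ht : t ≤ N) :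
    ∀ᵐ ω ∂μ, (μ[fun ω => (Mt μ X f N N ω - Mt μ X f N t ω) ^ 2 | FX X t]) ω ≤
      VV Q f (N - t) (X t ω) := by
  set Y : Ω → ℝ := fun ω => ∑ i ∈ range (N - t), f (X (t + i) ω) with hY
  have lY : MemLp Y 2 μ := memSum Q ν μ X hML hν hX lf t (N - t)
  have hcv := condVar_ae_eq_condExp_sq_sub_sq_condExp (FX_le hX.meas t) lY
  have h1 := Mt_t Q ν μ X hML hG1 hν hX mf lf ht
  have h2 := ((hG1 S Q ν hν f mf lf).2 Ω μ X hX).2.1 t (N - t)
  have h3 := ((hG1 S Q ν hν f mf lf).2 Ω μ X hX).2.2.1 t (N - t)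
  have e1 : (fun ω => (Mt μ X f N N ω - Mt μ X f N t ω) ^ 2) =ᵐ[μ]
      (Y - μ[Y | FX X t]) ^ 2 := by
    rw [Mt_N Q ν μ X hML hν hX mf lf N]
    filter_upwards [h1, h2] with ω h1 h2
    rw [h1, SS_split f X ht ω, Pi.pow_apply, Pi.sub_apply, h2]
    ring
  have e2 := condExp_congr_ae (m := FX X t) e1
  filter_upwards [e2, hcv, h3] with ω e2 hcv h3
  rw [e2]
  have e3 : (μ[(Y - μ[Y | FX X t]) ^ 2 | FX X t]) ω = (Var[Y; μ | FX X t]) ω := rfl
  rw [e3, hcv, Pi.sub_apply, Pi.pow_apply]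
  have e4 : (μ[Y ^ 2 | FX X t]) ω = VV Q f (N - t) (X t ω) := h3
  rw [e4]
  have := sq_nonneg ((μ[Y | FX X t]) ω)
  linarith

theorem Mt_mart (hX : MC Q ν μ X) (f : S → ℝ) (N : ℕ) :
    Martingale (Mt μ X f N) (Fil X hX.meas) μ :=
  martingale_condExp (SS f X N) (Fil X hX.meas) μ

theorem Mt_mem (hML : S_ML) (hν : ν.bind Q = ν) (hX : MC Q ν μ X) {f : S → ℝ}
    (lf : MemLp f 2 ν) (N t : ℕ) : MemLp (Mt μ X f N t) 2 μ :=
  MemLp.condExp one_le_two (memSS Q ν μ X hML hν hX lf N)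

/-- decomposition of the block sum -/
theorem decomp (hML : S_ML) (hEN : S_EN) (hD : S_D) (hG1 : S_G1) (hν : ν.bind Q = ν)
    (hX : MC Q ν μ X) {f : S → ℝ} (mf : Measurable f) (lf : MemLp f 2 ν) (N : ℕ)
    (B : ℕ → Set S) (mB : ∀ t, MeasurableSet (B t)) (w K : ℝ) (hw : 0 ≤ w) (hK : 0 ≤ K)
    (hB : ∀ t < N, ∀ x, x ∉ B t → |GG Q f (N - t) x| ≤ w ∧ VV Q f (N - t) x ≤ K) :
    ∃ W U : Ω → ℝ, Measurable W ∧ Measurable U ∧ MemLp U 2 μ ∧ MemLp W 4 μ ∧
      (∀ᵐ ω ∂μ, SS f X N ω = W ω + U ω) ∧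
      ∫ ω, U ω ^ 2 ∂μ ≤ 1000 * (w ^ 2 + N * ∫ x, (if w < |f x| then f x ^ 2 else 0) ∂ν
        + enu Q ν f B N) ∧
      ∫ ω, W ω ^ 4 ∂μ ≤ 10000 * (w ^ 2 * K + K ^ 2) := by
  obtain ⟨W, U, mW, mU, lU, lW, hWU, hU, hW⟩ := hD Ω μ (Fil X hX.meas) N (Mt μ X f N)
    (fun t ω => f (X t ω)) (fun t => {ω | X t ω ∈ B t}) w K hw hK (Mt_mart Q ν μ X hX f N)
    (Mt_mem Q ν μ X hML hν hX lf N)
    (fun t => lf.comp_measurePreserving (mp Q ν μ X hML hν hX t))
    (fun t => adap mf le_rfl)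
    (fun t => by
      have h1 : Measurable[MeasurableSpace.comap (X t) mS] (X t) := comap_measurable (X t)
      have h2 : MeasurableSpace.comap (X t) mS ≤ FX X t := le_iSup₂_of_le t le_rfl le_rfl
      exact h2 _ (h1 (mB t)))
    (by
      rw [Mt_N Q ν μ X hML hν hX mf lf N]
      exact Eventually.of_forall fun ω => rfl)
    (fun t ht => by
      filter_upwards [Mt_t Q ν μ X hML hG1 hν hX mf lf ht.le,
        Mt_V Q ν μ X hML hG1 hν hX mf lf ht.le] with ω h1 h2 hb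
      obtain ⟨b1, b2⟩ := hB t ht (X t ω) hb
      refine ⟨?_, h2.trans b2⟩
      rw [h1]
      have : SS f X t ω + GG Q f (N - t) (X t ω) - ∑ s ∈ range t, f (X s ω) =
        GG Q f (N - t) (X t ω) := by
        show SS f X t ω + GG Q f (N - t) (X t ω) - SS f X t ω = _
        ring
      rw [this]
      exact b1)
  refine ⟨W, U, mW, mU, lU, lW, ?_, ?_, hW⟩
  · filter_upwards [hWU] with ω h
    exact h
  · refine hU.trans (le_of_eq ?_)
    have e1 : ∀ t ∈ range N, ∫ ω, (if w < |f (X t ω)| then f (X t ω) ^ 2 else 0) ∂μ =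
        ∫ x, (if w < |f x| then f x ^ 2 else 0) ∂ν := by
      intro t _
      have h1 : AEStronglyMeasurable (fun x => if w < |f x| then f x ^ 2 else 0)
          (μ.map (X t)) := by
        refine (Measurable.ite (measurableSet_lt measurable_const mf.abs) (mf.pow_const 2)
          measurable_const).aestronglyMeasurable
      have h2 := integral_map (hX.meas t).aemeasurable h1
      rw [(hML S Q ν hν Ω μ X hX).1 t] at h2
      exact h2.symm
    rw [sum_congr rfl e1, sum_const, card_range, nsmul_eq_mul]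
    have e2 := (hEN S Q ν hν Ω μ X hX f mf lf B mB N).2
    rw [← e2]
    rfl

end Pool.Agent.N523.ME
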